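import Pool.Agent.H86.IR.Targets2

/-!
# Products of inner radii: CRX, the circle bound for points of the half circle
-/

set_option autoImplicit false

namespace Pool.Agent.H48.IR

open Pool.Agent.H86.IR

/-- the kernel -/
noncomputable def Lam (u : ℝ) : ℝ := Real.log |2 * Real.sin (u / 2)|

theorem Lam_neg (u : ℝ) : Lam (-u) = Lam u := by
  unfold Lam
  rw [neg_div, Real.sin_neg, mul_neg, abs_neg]

theorem Lam_two_pi_sub (u : ℝ) : Lam (2 * Real.pi - u) = Lam u := by
  unfold Lam
  have h : (2 * Real.pi - u) / 2 = Real.pi - u / 2 := by ring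
  rw [h, Real.sin_pi_sub]

/-- the reflected sequence -/
noncomputable def ss (N : ℕ) (t : ℕ → ℝ) (i : ℕ) : ℝ :=
  if i ≤ N then t i else 2 * Real.pi - t (2 * N - i)

theorem ss_mono {N : ℕ} {t : ℕ → ℝ} (h : TT N t) (i j : ℕ) (hij : i < j) (hj : j < 2 * N) :
    ss N t i < ss N t j := by
  unfold ss
  by_cases h1 : j ≤ N
  · rw [if_pos h1, if_pos (by omega)]
    exact h.mono i j hij h1
  · rw [if_neg h1]
    have h2 : t (2 * N - j) < Real.pi := by
      rw [← h.last]
      exact h.mono _ _ (by omega) le_rfl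
    by_cases h3 : i ≤ N
    · rw [if_pos h3]
      have h4 : t i ≤ Real.pi := by
        rcases Nat.lt_or_ge i N with h5 | h5
        · rw [← h.last]
          exact (h.mono _ _ h5 le_rfl).le
        · have h6 : i = N := le_antisymm h3 h5
          rw [h6, h.last]
      linarith
    · rw [if_neg h3]
      have h5 : t (2 * N - j) < t (2 * N - i) := h.mono _ _ (by omega) (by omega)
      linarith

theorem ss_last {N : ℕ} {t : ℕ → ℝ} (h : TT N t) :
    ss N t (2 * N - 1) < ss N t 0 + 2 * Real.pi := by
  have hp := h.pos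
  have h0 : ss N t 0 = 0 := by
    unfold ss
    rw [if_pos (Nat.zero_le _), h.zero]
  rw [h0]
  unfold ss
  by_cases h1 : 2 * N - 1 ≤ N
  · have h2 : N = 1 := by omega
    rw [if_pos h1]
    have h3 : 2 * N - 1 = N := by omega
    rw [h3, h.last]
    linarith [Real.pi_pos]
  · rw [if_neg h1]
    have h3 : 2 * N - (2 * N - 1) = 1 := by omega
    rw [h3]
    have h4 : t 0 < t 1 := h.mono 0 1 zero_lt_one hp
    rw [h.zero] at h4
    linarith

end Pool.Agent.H48.IR

namespace Pool.Agent.H48.IR

open Pool.Agent.H86.IR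

/-- CRX -/
theorem crx (hCIR : T_CIR) (hREF : T_REF) : T_CRX := by
  intro N t h
  have hp := h.pos
  have key : ∑ i ∈ Finset.range (2 * N), ∑ j ∈ Finset.range (2 * N), (-1 : ℝ) ^ i * (-1) ^ j *
      Lam (ss N t i - ss N t j) =
      2 * ∑ k ∈ Finset.range (N + 1), ∑ j ∈ Finset.range (N + 1), wt N k * wt N j *
        (Lam (t k - t j) + Lam (t k + t j)) := by
    have e1 : ∀ j, ∑ i ∈ Finset.range (2 * N), (-1 : ℝ) ^ i * Lam (ss N t i - ss N t j) =
        ∑ k ∈ Finset.range (N + 1), wt N k *
          (Lam (t k - ss N t j) + Lam (2 * Real.pi - t k - ss N t j)) := by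
      intro j
      exact hREF N t (fun u => Lam (u - ss N t j)) hp h.zero h.last (by
        show Lam (2 * Real.pi - ss N t j) = Lam (0 - ss N t j)
        rw [Lam_two_pi_sub, zero_sub, Lam_neg])
    have e2 : ∀ k, ∑ j ∈ Finset.range (2 * N), (-1 : ℝ) ^ j *
        (Lam (t k - ss N t j) + Lam (2 * Real.pi - t k - ss N t j)) =
        ∑ j ∈ Finset.range (N + 1), wt N j *
          ((Lam (t k - t j) + Lam (2 * Real.pi - t k - t j)) +
            (Lam (t k - (2 * Real.pi - t j)) + Lam (2 * Real.pi - t k - (2 * Real.pi - t j)))) := by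
      intro k
      exact hREF N t (fun u => Lam (t k - u) + Lam (2 * Real.pi - t k - u)) hp h.zero h.last (by
        show Lam (t k - 2 * Real.pi) + Lam (2 * Real.pi - t k - 2 * Real.pi) =
          Lam (t k - 0) + Lam (2 * Real.pi - t k - 0)
        have a1 : Lam (t k - 2 * Real.pi) = Lam (t k) := by
          rw [← Lam_neg, neg_sub, Lam_two_pi_sub]
        have a2 : 2 * Real.pi - t k - 2 * Real.pi = - t k := by ring
        rw [a1, a2, Lam_neg, sub_zero, sub_zero, Lam_two_pi_sub])
    have e3 : ∀ k j, (Lam (t k - t j) + Lam (2 * Real.pi - t k - t j)) +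
        (Lam (t k - (2 * Real.pi - t j)) + Lam (2 * Real.pi - t k - (2 * Real.pi - t j))) =
        2 * (Lam (t k - t j) + Lam (t k + t j)) := by
      intro k j
      have a1 : 2 * Real.pi - t k - t j = 2 * Real.pi - (t k + t j) := by ring
      have a2 : t k - (2 * Real.pi - t j) = -(2 * Real.pi - (t k + t j)) := by ring
      have a3 : 2 * Real.pi - t k - (2 * Real.pi - t j) = -(t k - t j) := by ring
      rw [a1, a2, a3, Lam_neg, Lam_neg, Lam_two_pi_sub]
      ring
    calc ∑ i ∈ Finset.range (2 * N), ∑ j ∈ Finset.range (2 * N), (-1 : ℝ) ^ i * (-1) ^ j *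
          Lam (ss N t i - ss N t j)
        = ∑ j ∈ Finset.range (2 * N), (-1 : ℝ) ^ j *
            ∑ i ∈ Finset.range (2 * N), (-1 : ℝ) ^ i * Lam (ss N t i - ss N t j) := by
          rw [Finset.sum_comm]
          apply Finset.sum_congr rfl
          intro j _
          rw [Finset.mul_sum]
          apply Finset.sum_congr rfl
          intro i _
          ring
      _ = ∑ j ∈ Finset.range (2 * N), ∑ k ∈ Finset.range (N + 1), wt N k * ((-1 : ℝ) ^ j *
            (Lam (t k - ss N t j) + Lam (2 * Real.pi - t k - ss N t j))) := by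
          apply Finset.sum_congr rfl
          intro j _
          rw [e1 j, Finset.mul_sum]
          apply Finset.sum_congr rfl
          intro k _
          ring
      _ = ∑ k ∈ Finset.range (N + 1), wt N k * ∑ j ∈ Finset.range (2 * N), (-1 : ℝ) ^ j *
            (Lam (t k - ss N t j) + Lam (2 * Real.pi - t k - ss N t j)) := by
          rw [Finset.sum_comm]
          apply Finset.sum_congr rfl
          intro k _
          rw [Finset.mul_sum]
      _ = 2 * ∑ k ∈ Finset.range (N + 1), ∑ j ∈ Finset.range (N + 1), wt N k * wt N j *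
            (Lam (t k - t j) + Lam (t k + t j)) := by
          rw [Finset.mul_sum]
          apply Finset.sum_congr rfl
          intro k _
          rw [e2 k, Finset.mul_sum, Finset.mul_sum]
          apply Finset.sum_congr rfl
          intro j _
          rw [e3 k j]
          ring
  have hc := hCIR N (ss N t) hp (ss_mono h) (ss_last h)
  have hc' : -(∑ i ∈ Finset.range (2 * N), ∑ j ∈ Finset.range (2 * N), (-1 : ℝ) ^ i * (-1) ^ j *
      Lam (ss N t i - ss N t j)) ≤ 2 * N * Real.log (2 / N) := hc
  rw [key] at hc'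
  have hfin : -(∑ k ∈ Finset.range (N + 1), ∑ j ∈ Finset.range (N + 1), wt N k * wt N j *
      (Lam (t k - t j) + Lam (t k + t j))) ≤ N * Real.log (2 / N) := by linarith
  exact hfin

end Pool.Agent.H48.IR
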