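import Pool.Agent.H86.IR.Targets1

/-!
# Products of inner radii: PSI, a convex truncation
-/

set_option autoImplicit false

open MeasureTheory intervalIntegral Set

namespace Pool.Agent.H48.IR

/-- the bump -/
noncomputable def qq (x : ℝ) : ℝ := 6 * (max 0 (min x 1)) * (1 - max 0 (min x 1))

theorem qq_cont : Continuous qq := by
  unfold qq
  fun_prop

theorem qq_nonneg (x : ℝ) : 0 ≤ qq x := by
  unfold qq
  have h0 : 0 ≤ max 0 (min x 1) := le_max_left _ _
  have h1 : max 0 (min x 1) ≤ 1 := max_le zero_le_one (min_le_right _ _)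
  exact mul_nonneg (mul_nonneg (by norm_num) h0) (by linarith)

theorem qq_neg {x : ℝ} (h : x ≤ 0) : qq x = 0 := by
  unfold qq
  have h1 : min x 1 ≤ 0 := le_trans (min_le_left _ _) h
  rw [max_eq_left h1]
  ring

theorem qq_one {x : ℝ} (h : 1 ≤ x) : qq x = 0 := by
  unfold qq
  rw [min_eq_right h, max_eq_right zero_le_one]
  ring

theorem qq_mid {x : ℝ} (h : 0 ≤ x) (h' : x ≤ 1) : qq x = 6 * x - 6 * x ^ 2 := by
  unfold qq
  rw [min_eq_left h', max_eq_right h]
  ring

/-- the first integral -/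
noncomputable def pp1 (x : ℝ) : ℝ := ∫ t in (0 : ℝ)..x, qq t

theorem pp1_deriv (x : ℝ) : HasDerivAt pp1 (qq x) x :=
  integral_hasDerivAt_right (qq_cont.intervalIntegrable _ _)
    qq_cont.stronglyMeasurable.stronglyMeasurableAtFilter qq_cont.continuousAt

theorem pp1_cont : Continuous pp1 :=
  continuous_iff_continuousAt.2 fun x => (pp1_deriv x).continuousAt

theorem pp1_mono : Monotone pp1 := by
  apply monotone_of_deriv_nonneg (fun x => (pp1_deriv x).differentiableAt)
  intro x
  rw [(pp1_deriv x).deriv]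
  exact qq_nonneg x

theorem pp1_neg {x : ℝ} (h : x ≤ 0) : pp1 x = 0 := by
  have h0 : pp1 x = ∫ t in (0 : ℝ)..x, (0 : ℝ) := by
    unfold pp1
    apply integral_congr
    intro t ht
    rw [uIcc_of_ge h] at ht
    exact qq_neg ht.2
  rw [h0]
  simp

theorem pp1_at_one : pp1 1 = 1 := by
  have h0 : pp1 1 = ∫ t in (0 : ℝ)..1, (6 * t - 6 * t ^ 2) := by
    unfold pp1
    apply integral_congr
    intro t ht
    rw [uIcc_of_le zero_le_one] at ht
    exact qq_mid ht.1 ht.2
  rw [h0, intervalIntegral.integral_sub (by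
      apply Continuous.intervalIntegrable; fun_prop) (by
      apply Continuous.intervalIntegrable; fun_prop)]
  rw [intervalIntegral.integral_const_mul, intervalIntegral.integral_const_mul, integral_id,
    integral_pow]
  norm_num

theorem pp1_one {x : ℝ} (h : 1 ≤ x) : pp1 x = 1 := by
  have h0 : pp1 x = pp1 1 + ∫ t in (1 : ℝ)..x, qq t := by
    unfold pp1
    rw [integral_add_adjacent_intervals (qq_cont.intervalIntegrable _ _)
      (qq_cont.intervalIntegrable _ _)]
  have h1 : ∫ t in (1 : ℝ)..x, qq t = ∫ t in (1 : ℝ)..x, (0 : ℝ) := by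
    apply integral_congr
    intro t ht
    rw [uIcc_of_le h] at ht
    exact qq_one ht.1
  rw [h0, h1, pp1_at_one]
  simp

theorem pp1_nonneg (x : ℝ) : 0 ≤ pp1 x := by
  rcases le_total x 0 with h | h
  · rw [pp1_neg h]
  · have h1 := pp1_mono h
    rw [pp1_neg le_rfl] at h1
    exact h1

theorem pp1_le (x : ℝ) : pp1 x ≤ 1 := by
  rcases le_total x 1 with h | h
  · have h1 := pp1_mono h
    rw [pp1_at_one] at h1
    exact h1
  · rw [pp1_one h]

/-- the second integral -/
noncomputable def pp (x : ℝ) : ℝ := ∫ t in (0 : ℝ)..x, pp1 t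

theorem pp_deriv (x : ℝ) : HasDerivAt pp (pp1 x) x :=
  integral_hasDerivAt_right (pp1_cont.intervalIntegrable _ _)
    pp1_cont.stronglyMeasurable.stronglyMeasurableAtFilter pp1_cont.continuousAt

theorem pp_neg {x : ℝ} (h : x ≤ 0) : pp x = 0 := by
  have h0 : pp x = ∫ t in (0 : ℝ)..x, (0 : ℝ) := by
    unfold pp
    apply integral_congr
    intro t ht
    rw [uIcc_of_ge h] at ht
    exact pp1_neg ht.2
  rw [h0]
  simp

theorem pp_nonneg (x : ℝ) : 0 ≤ pp x := by
  rcases le_total x 0 with h | h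
  · rw [pp_neg h]
  · exact integral_nonneg h fun t _ => pp1_nonneg t

theorem pp_one_le : pp 1 ≤ 1 := by
  have h0 : pp 1 ≤ ∫ t in (0 : ℝ)..1, (1 : ℝ) := by
    unfold pp
    apply integral_mono_on zero_le_one (pp1_cont.intervalIntegrable _ _)
      (continuous_const.intervalIntegrable _ _)
    intro t _
    exact pp1_le t
  simpa using h0

theorem pp_one {x : ℝ} (h : 1 ≤ x) : pp x = x - 1 + pp 1 := by
  have h0 : pp x = pp 1 + ∫ t in (1 : ℝ)..x, pp1 t := by
    unfold pp
    rw [integral_add_adjacent_intervals (pp1_cont.intervalIntegrable _ _)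
      (pp1_cont.intervalIntegrable _ _)]
  have h1 : ∫ t in (1 : ℝ)..x, pp1 t = ∫ t in (1 : ℝ)..x, (1 : ℝ) := by
    apply integral_congr
    intro t ht
    rw [uIcc_of_le h] at ht
    exact pp1_one ht.1
  rw [h0, h1]
  simp
  ring

end Pool.Agent.H48.IR

namespace Pool.Agent.H48.IR

open Pool.Agent.H86.IR

/-- PSI -/
theorem psi : T_PSI := by
  intro δ hδ
  have hd1 : ∀ s : ℝ, HasDerivAt (fun s => δ * pp ((s - δ) / δ)) (pp1 ((s - δ) / δ)) s := by
    intro s
    have h1 : HasDerivAt (fun s : ℝ => (s - δ) / δ) (1 / δ) s :=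
      ((hasDerivAt_id s).sub_const δ).div_const δ
    have h2 := ((pp_deriv ((s - δ) / δ)).comp s h1).const_mul δ
    have h3 : δ * (pp1 ((s - δ) / δ) * (1 / δ)) = pp1 ((s - δ) / δ) := by
      field_simp
    rw [h3] at h2
    exact h2
  have hd2 : ∀ s : ℝ, HasDerivAt (fun s => pp1 ((s - δ) / δ)) (qq ((s - δ) / δ) * (1 / δ)) s := by
    intro s
    have h1 : HasDerivAt (fun s : ℝ => (s - δ) / δ) (1 / δ) s :=
      ((hasDerivAt_id s).sub_const δ).div_const δ
    exact (pp1_deriv ((s - δ) / δ)).comp s h1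
  have e1 : deriv (fun s => δ * pp ((s - δ) / δ)) = fun s => pp1 ((s - δ) / δ) := by
    funext s
    exact (hd1 s).deriv
  have e2 : deriv (fun s => pp1 ((s - δ) / δ)) = fun s => qq ((s - δ) / δ) * (1 / δ) := by
    funext s
    exact (hd2 s).deriv
  refine ⟨fun s => δ * pp ((s - δ) / δ), 2 * δ - δ * pp 1, ?_, ?_, ?_, ?_, ?_, ?_, ?_⟩
  · have h2 : ContDiff ℝ 1 (fun s => pp1 ((s - δ) / δ)) := by
      rw [contDiff_one_iff_deriv]
      refine ⟨fun s => (hd2 s).differentiableAt, ?_⟩
      rw [e2]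
      have hq := qq_cont
      fun_prop
    have h3 : ContDiff ℝ (1 + 1) (fun s => δ * pp ((s - δ) / δ)) := by
      rw [contDiff_succ_iff_deriv]
      refine ⟨fun s => (hd1 s).differentiableAt, ?_, ?_⟩
      · intro h
        exact absurd h (by decide)
      · rw [e1]
        exact h2
    have h4 : (1 + 1 : WithTop ℕ∞) = 2 := by norm_num
    rw [h4] at h3
    exact h3
  · intro s hs
    have h1 : (s - δ) / δ ≤ 0 := div_nonpos_of_nonpos_of_nonneg (by linarith) hδ.le
    show δ * pp ((s - δ) / δ) = 0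
    rw [pp_neg h1, mul_zero]
  · intro s hs
    have h1 : 1 ≤ (s - δ) / δ := by
      rw [le_div_iff₀ hδ]
      linarith
    show δ * pp ((s - δ) / δ) = s - (2 * δ - δ * pp 1)
    rw [pp_one h1]
    field_simp
    ring
  · nlinarith [pp_one_le, pp_nonneg 1]
  · nlinarith [pp_one_le, pp_nonneg 1, mul_nonneg hδ.le (pp_nonneg 1)]
  · intro s
    exact mul_nonneg hδ.le (pp_nonneg _)
  · intro s
    rw [e1, e2]
    exact mul_nonneg (qq_nonneg _) (by positivity)

end Pool.Agent.H48.IR
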